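import Pool.Agent.Helper488_fb.Av
import Pool.Agent.H345R2.SI.Const

/-!
The lower bound for the averages near every real point, for all short intervals.
-/

open Complex Filter Topology Set MeasureTheory
open scoped BigOperators ComplexConjugate

namespace Helper488FB

open H370

theorem cc_nonneg {lam : ℝ} (h0 : 0 < lam) : 0 ≤ SI.cc lam := by
  unfold SI.cc
  have h1 := Rf_nonneg 0
  have h2 : 0 ≤ ∫ α in (0 : ℝ)..1, α * Rf α :=
    intervalIntegral.integral_nonneg zero_le_one fun α hα => mul_nonneg hα.1 (Rf_nonneg α)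
  positivity

theorem qq_short {F : ℂ → ℂ} (hF : GoodL F) (r lam ε : ℝ) (h0 : 0 < lam) (h1 : lam < r)
    (hr : r ≤ 1) (hε : 0 < ε) : ∃ T0 : ℝ, 10 ≤ T0 ∧ ∀ T : ℝ, T0 ≤ T →
    ∀ A B : ℝ, T + 1 ≤ A → B ≤ 2 * T - 1 → T ^ r ≤ B - A →
      0 < (NN F A B : ℝ) ∧ QQ F (lam * Real.log T) A B ≤ (SI.cc lam + ε) * (NN F A B : ℝ) := by
  have hcc := cc_nonneg h0
  set r' : ℝ := min r (3 / 2 * lam) with hr'
  have hr'1 : r' ≤ r := min_le_left _ _
  have hr'2 : r' ≤ 3 / 2 * lam := min_le_right _ _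
  have hr'3 : lam < r' := lt_min h1 (by linarith)
  have hr'0 : 0 < r' := h0.trans hr'3
  set e : ℝ := 1 - lam / r' with he
  have he0 : 0 < e := by
    rw [he, sub_pos, div_lt_one hr'0]
    exact hr'3
  have he1 : e < 1 / 2 := by
    have : 2 / 3 ≤ lam / r' := by
      rw [le_div_iff₀ hr'0]
      linarith
    rw [he]
    linarith
  have hlam : (1 - e) * r' = lam := by
    rw [he]
    field_simp
    ring
  set η : ℝ := min (1 / 70) (ε / (20 * (SI.cc lam + 1))) with hη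
  have hη0 : 0 < η := by positivity
  have hη1 : η ≤ 1 / 70 := min_le_left _ _
  have hη2 : η * (20 * (SI.cc lam + 1)) ≤ ε := by
    have := min_le_right (1 / 70 : ℝ) (ε / (20 * (SI.cc lam + 1)))
    rw [← hη, le_div_iff₀ (by positivity)] at this
    exact this
  obtain ⟨T0, hT0, hPC⟩ := SI.pair_short hF r' e η hr'0 (hr'1.trans hr) he0 he1 hη0
  refine ⟨T0, hT0, fun T hT A B hA hB hAB => ?_⟩
  have hT1 : 1 ≤ T := by linarith
  obtain ⟨hNN, hQQ⟩ := hPC T hT A B hA hB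
    ((Real.rpow_le_rpow_of_exponent_le hT1 hr'1).trans hAB)
  rw [← mul_assoc, hlam] at hQQ
  have hL : 0 < Real.log T := Real.log_pos (by linarith)
  have hTr : 0 < T ^ r := Real.rpow_pos_of_pos (by linarith) r
  have hH : 0 < B - A := by linarith
  have hpi := Real.pi_pos
  have hpi2 : Real.pi < 3.15 := Real.pi_lt_d2
  set M : ℝ := (B - A) * Real.log T / (2 * Real.pi) with hM
  have hM0 : 0 < M := by positivity
  have hHL : (B - A) * Real.log T = 2 * Real.pi * M := by rw [hM]; field_simp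
  rw [hHL] at hNN
  have hηM : η * (2 * Real.pi * M) ≤ (7 * η) * M := by
    have : 2 * Real.pi ≤ 7 := by linarith
    calc η * (2 * Real.pi * M) = (η * M) * (2 * Real.pi) := by ring
      _ ≤ (η * M) * 7 := by
        apply mul_le_mul_of_nonneg_left this (by positivity)
      _ = (7 * η) * M := by ring
  obtain ⟨hNNl, -⟩ := abs_le.mp hNN
  have hNl : M * (1 - 7 * η) ≤ NN F A B := by linarith
  have h7 : 0 < 1 - 7 * η := by linarith
  have hN0 : 0 < (NN F A B : ℝ) := lt_of_lt_of_le (by positivity) hNl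
  refine ⟨hN0, hQQ.trans ?_⟩
  have e1 : Rf 0 / lam + 2 * lam * (∫ α in (0 : ℝ)..1, α * Rf α) = SI.cc lam := rfl
  rw [e1]
  have h8 : SI.cc lam + η ≤ (SI.cc lam + ε) * (1 - 7 * η) := by
    have h9 : ε * (7 * η) ≤ ε / 10 := by nlinarith
    nlinarith
  calc M * (SI.cc lam + η) ≤ M * ((SI.cc lam + ε) * (1 - 7 * η)) :=
        mul_le_mul_of_nonneg_left h8 hM0.le
    _ = (SI.cc lam + ε) * (M * (1 - 7 * η)) := by ring
    _ ≤ (SI.cc lam + ε) * (NN F A B : ℝ) := mul_le_mul_of_nonneg_left hNl (by linarith)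

theorem lower {F : ℂ → ℂ} (hF : GoodL F) (r lam ε : ℝ) (h0 : 0 < lam) (h1 : lam < r)
    (hr : r ≤ 1) (hε : 0 < ε) : ∃ T0 : ℝ, 10 ≤ T0 ∧ ∀ T : ℝ, T0 ≤ T →
    ∀ A B : ℝ, T + 1 ≤ A → B ≤ 2 * T - 1 → T ^ r ≤ B - A → 0 < (NN F A B : ℝ) ∧
      ∀ (n : ℕ) (c : ℝ),
      (2 * (NN F A B : ℝ) - Ns F A B) * (n : ℝ) ^ 2 ≤
        n * ((SI.cc lam + ε) * (NN F A B : ℝ)) +
          2 * ∑ k ∈ Finset.Ico 1 n, ((n : ℝ) - k) * QC F (lam * Real.log T) A B (k * c) ∧
      (3 * (NN F A B : ℝ) - 2 * Nd F A B) * (n : ℝ) ^ 2 ≤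
        n * ((SI.cc lam + ε) * (NN F A B : ℝ)) +
          2 * ∑ k ∈ Finset.Ico 1 n, ((n : ℝ) - k) * QC F (lam * Real.log T) A B (k * c) := by
  obtain ⟨T0, hT0, h⟩ := qq_short hF r lam ε h0 h1 hr hε
  refine ⟨T0, hT0, fun T hT A B hA hB hAB => ?_⟩
  obtain ⟨hN0, hQ⟩ := h T hT A B hA hB hAB
  refine ⟨hN0, fun n c => ?_⟩
  have hU : 1 ≤ A := by linarith
  obtain ⟨g1, g2⟩ := prog_ineq (U2 := B) hF hU (lam * Real.log T) c n
  have hn : (0 : ℝ) ≤ n := Nat.cast_nonneg n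
  have h2 := mul_le_mul_of_nonneg_left hQ hn
  exact ⟨by linarith, by linarith⟩

end Helper488FB
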