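import Pool.Agent.Helper488_fb.Core

/-!
Averages of the form factor near an arbitrary real point.
-/

open Complex Filter Topology Set MeasureTheory
open scoped BigOperators ComplexConjugate

namespace Helper488FB

open H370

/-- the average of the form factor near `c`, at the scale `Λ` -/
noncomputable def QC (F : ℂ → ℂ) (Λ U1 U2 c : ℝ) : ℝ :=
  ∫ α in (-1 : ℝ)..1, Rf α * ((Real.sqrt Real.pi)⁻¹ * JJ F U1 U2 (c + Λ * α))

section

variable {F : ℂ → ℂ} (hF : GoodL F) {U1 U2 : ℝ} (hU : 1 ≤ U1)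

include hF hU in
theorem QC_cont_int (Λ c : ℝ) :
    Continuous fun α : ℝ => Rf α * ((Real.sqrt Real.pi)⁻¹ * JJ F U1 U2 (c + Λ * α)) := by
  have h1 := Rf_cont
  have h2 := (JJ_cont (U2 := U2) hF hU).comp (by fun_prop : Continuous fun α : ℝ => c + Λ * α)
  exact h1.mul (continuous_const.mul h2)

include hF hU in
theorem sum_exp (Λ c : ℝ) : ∑ s ∈ Zf F U1 U2, ∑ s' ∈ Zf F U1 U2,
    (mult F s : ℂ) * (mult F s' : ℂ) * ((phi Λ (zz s - zz s')) ^ 2 *
      cexp (I * c * (zz s - zz s'))) = ((QC F Λ U1 U2 c : ℝ) : ℂ) := by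
  have hpi : (Real.sqrt Real.pi : ℂ) ≠ 0 := by
    rw [Ne, Complex.ofReal_eq_zero]; positivity
  have h1 : ∀ s s' : ℂ, (phi Λ (zz s - zz s')) ^ 2 * cexp (I * c * (zz s - zz s')) =
      ∫ α in (-1 : ℝ)..1, (Rf α : ℂ) *
      (cexp (I * ((c + Λ * α : ℝ) : ℂ) * (zz s - zz s')) * cexp (-(zz s - zz s') ^ 2 / 4)) := by
    intro s s'
    unfold phi
    rw [mul_pow, kap_sq, ← intervalIntegral.integral_mul_const,
      ← intervalIntegral.integral_mul_const]
    refine intervalIntegral.integral_congr fun α _ => ?_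
    rw [← Complex.exp_nat_mul]
    have e1 : cexp (I * ((c + Λ * α : ℝ) : ℂ) * (zz s - zz s')) =
        cexp (I * (Λ * (zz s - zz s')) * (α : ℂ)) * cexp (I * c * (zz s - zz s')) := by
      rw [← Complex.exp_add]; congr 1
      push_cast; ring
    have e2 : ((2 : ℕ) : ℂ) * (-(zz s - zz s') ^ 2 / 8) = -(zz s - zz s') ^ 2 / 4 := by
      push_cast; ring
    rw [e1, e2]; ring
  have h3 : ∀ α : ℝ, ((Rf α * ((Real.sqrt Real.pi)⁻¹ * JJ F U1 U2 (c + Λ * α)) : ℝ) : ℂ) =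
      ∑ s ∈ Zf F U1 U2, ∑ s' ∈ Zf F U1 U2, (mult F s : ℂ) * (mult F s' : ℂ) * ((Rf α : ℂ) *
    (cexp (I * ((c + Λ * α : ℝ) : ℂ) * (zz s - zz s')) * cexp (-(zz s - zz s') ^ 2 / 4))) := by
    intro α
    rw [Complex.ofReal_mul, Complex.ofReal_mul, JJ_eq hF hU, Finset.mul_sum, Finset.mul_sum,
      Finset.mul_sum]
    refine Finset.sum_congr rfl fun s _ => ?_
    rw [Finset.mul_sum, Finset.mul_sum, Finset.mul_sum]
    refine Finset.sum_congr rfl fun s' _ => ?_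
    push_cast
    field_simp
  have hc : ∀ s s' : ℂ, Continuous fun α : ℝ => (mult F s : ℂ) * (mult F s' : ℂ) * ((Rf α : ℂ) *
    (cexp (I * ((c + Λ * α : ℝ) : ℂ) * (zz s - zz s')) * cexp (-(zz s - zz s') ^ 2 / 4))) := by
    intro s s'
    have := Rf_cont
    fun_prop
  unfold QC
  rw [← intervalIntegral.integral_ofReal]
  simp_rw [h3]
  rw [intervalIntegral.integral_finsetSum]
  swap
  · intro s _
    exact (continuous_finsetSum _ fun s' _ => hc s s').intervalIntegrable _ _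
  refine Finset.sum_congr rfl fun s _ => ?_
  rw [intervalIntegral.integral_finsetSum]
  swap
  · intro s' _
    exact (hc s s').intervalIntegrable _ _
  refine Finset.sum_congr rfl fun s' _ => ?_
  rw [h1, intervalIntegral.integral_const_mul]

include hF hU in
theorem QC_even (Λ c : ℝ) : QC F Λ U1 U2 (-c) = QC F Λ U1 U2 c := by
  unfold QC
  have h := intervalIntegral.integral_comp_neg (a := (-1 : ℝ)) (b := 1)
    (fun α => Rf α * ((Real.sqrt Real.pi)⁻¹ * JJ F U1 U2 (c + Λ * α)))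
  rw [neg_neg] at h
  rw [← h]
  refine intervalIntegral.integral_congr fun α _ => ?_
  rw [Rf_even, ← JJ_even hF hU (c + Λ * -α)]
  congr 3
  ring

theorem QC_nonneg (Λ c : ℝ) : 0 ≤ QC F Λ U1 U2 c := by
  unfold QC
  refine intervalIntegral.integral_nonneg (by norm_num) fun α _ => ?_
  have h1 := Rf_nonneg α
  have h2 : 0 ≤ JJ F U1 U2 (c + Λ * α) := by
    unfold JJ
    exact integral_nonneg fun t => by positivity
  positivity

include hF hU in
theorem sum_cos (Λ c : ℝ) : ∑ s ∈ Zf F U1 U2, ∑ s' ∈ Zf F U1 U2,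
    (mult F s : ℂ) * (mult F s' : ℂ) * ((phi Λ (zz s - zz s')) ^ 2 *
      Complex.cos (c * (zz s - zz s'))) = ((QC F Λ U1 U2 c : ℝ) : ℂ) := by
  have h1 := sum_exp (U2 := U2) hF hU Λ c
  have h2 := sum_exp (U2 := U2) hF hU Λ (-c)
  rw [QC_even hF hU] at h2
  have h3 : ∑ s ∈ Zf F U1 U2, ∑ s' ∈ Zf F U1 U2,
    (mult F s : ℂ) * (mult F s' : ℂ) * ((phi Λ (zz s - zz s')) ^ 2 *
      Complex.cos (c * (zz s - zz s'))) =
      (∑ s ∈ Zf F U1 U2, ∑ s' ∈ Zf F U1 U2,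
    (mult F s : ℂ) * (mult F s' : ℂ) * ((phi Λ (zz s - zz s')) ^ 2 *
      cexp (I * c * (zz s - zz s'))) + ∑ s ∈ Zf F U1 U2, ∑ s' ∈ Zf F U1 U2,
    (mult F s : ℂ) * (mult F s' : ℂ) * ((phi Λ (zz s - zz s')) ^ 2 *
      cexp (I * ((-c : ℝ) : ℂ) * (zz s - zz s')))) / 2 := by
    rw [← Finset.sum_add_distrib, Finset.sum_div]
    refine Finset.sum_congr rfl fun s _ => ?_
    rw [← Finset.sum_add_distrib, Finset.sum_div]
    refine Finset.sum_congr rfl fun s' _ => ?_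
    rw [Complex.cos]
    have e1 : (c : ℂ) * (zz s - zz s') * I = I * c * (zz s - zz s') := by ring
    have e2 : -((c : ℂ) * (zz s - zz s')) * I = I * ((-c : ℝ) : ℂ) * (zz s - zz s') := by
      push_cast; ring
    rw [e1, e2]
    ring
  rw [h3, h1, h2]
  ring

include hF hU in
theorem QC_zero (Λ : ℝ) : QC F Λ U1 U2 0 = QQ F Λ U1 U2 := by
  have h := sum_cos (U2 := U2) hF hU Λ 0
  rw [QQ_eq hF hU]
  have h2 : ∑ s ∈ Zf F U1 U2, ∑ s' ∈ Zf F U1 U2,
    (mult F s : ℂ) * (mult F s' : ℂ) * ((phi Λ (zz s - zz s')) ^ 2) =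
    ((QC F Λ U1 U2 0 : ℝ) : ℂ) := by
    rw [← h]
    refine Finset.sum_congr rfl fun s _ => Finset.sum_congr rfl fun s' _ => ?_
    rw [Complex.ofReal_zero, zero_mul, Complex.cos_zero, mul_one]
  rw [h2, Complex.ofReal_re]

theorem cos_prod (a b z : ℂ) : Complex.cos (a * z) * Complex.cos (b * z) =
    (Complex.cos ((a - b) * z) + Complex.cos ((a + b) * z)) / 2 := by
  rw [sub_mul, add_mul, Complex.cos_sub, Complex.cos_add]
  ring

include hF hU in
/-- **the exact inequality** -/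
theorem exact_ineq (Λ : ℝ) {ι : Type} (J : Finset ι) (f w : ι → ℝ) (hw : ∀ j ∈ J, 0 ≤ w j) :
    (2 * (NN F U1 U2 : ℝ) - Ns F U1 U2) * (∑ j ∈ J, w j) ^ 2 ≤
      ∑ j ∈ J, ∑ l ∈ J, w j * w l *
        ((QC F Λ U1 U2 (f j - f l) + QC F Λ U1 U2 (f j + f l)) / 2) ∧
    (3 * (NN F U1 U2 : ℝ) - 2 * Nd F U1 U2) * (∑ j ∈ J, w j) ^ 2 ≤
      ∑ j ∈ J, ∑ l ∈ J, w j * w l *
        ((QC F Λ U1 U2 (f j - f l) + QC F Λ U1 U2 (f j + f l)) / 2) := by
  have hnn : 0 ≤ ∑ j ∈ J, ∑ l ∈ J, w j * w l *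
        ((QC F Λ U1 U2 (f j - f l) + QC F Λ U1 U2 (f j + f l)) / 2) := by
    refine Finset.sum_nonneg fun j hj => Finset.sum_nonneg fun l hl => ?_
    have h1 := hw j hj
    have h2 := hw l hl
    have h3 := QC_nonneg (F := F) (U1 := U1) (U2 := U2) Λ (f j - f l)
    have h4 := QC_nonneg (F := F) (U1 := U1) (U2 := U2) Λ (f j + f l)
    positivity
  have hW0 : 0 ≤ ∑ j ∈ J, w j := Finset.sum_nonneg hw
  rcases hW0.eq_or_lt with hW | hW
  · rw [← hW]
    simpa using hnn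
  set W := ∑ j ∈ J, w j with hWdef
  obtain ⟨E, iE1, iE2, k, hk⟩ := gram_exists Λ
  have hK0 : IsKer (phi Λ) := ⟨E, iE1, iE2, k, hk⟩
  have hw' : ∀ j ∈ J, 0 ≤ (fun j => w j / W) j := fun j hj => div_nonneg (hw j hj) hW0
  have hK := ker_cos hK0 J f (fun j => w j / W) hw'
  set φ : ℂ → ℂ := fun x => phi Λ x * ∑ j ∈ J, ((w j / W : ℝ) : ℂ) * Complex.cos (f j * x)
    with hφ
  have hev : ∀ z, φ (-z) = φ z := by
    intro z
    simp only [hφ, phi_even]
    congr 1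
    refine Finset.sum_congr rfl fun j _ => ?_
    rw [mul_neg, Complex.cos_neg]
  have h0 : φ 0 = 1 := by
    simp only [hφ, phi_zero, mul_zero, Complex.cos_zero, mul_one, one_mul]
    rw [← Complex.ofReal_sum, ← Finset.sum_div, ← hWdef, div_self hW.ne', Complex.ofReal_one]
  obtain ⟨t1, t2⟩ := trace_gen (U2 := U2) hF hU φ hK hev h0
  have hsum : (∑ s ∈ Zf F U1 U2, ∑ s' ∈ Zf F U1 U2,
      (mult F s : ℂ) * (mult F s' : ℂ) * (φ (zz s - zz s')) ^ 2).re =
      (∑ j ∈ J, ∑ l ∈ J, w j * w l *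
        ((QC F Λ U1 U2 (f j - f l) + QC F Λ U1 U2 (f j + f l)) / 2)) / W ^ 2 := by
    have h1 : ∀ s s' : ℂ, (mult F s : ℂ) * (mult F s' : ℂ) * (φ (zz s - zz s')) ^ 2 =
        ∑ j ∈ J, ∑ l ∈ J, ((w j * w l / W ^ 2 / 2 : ℝ) : ℂ) *
          ((mult F s : ℂ) * (mult F s' : ℂ) * ((phi Λ (zz s - zz s')) ^ 2 *
            Complex.cos ((f j - f l : ℝ) * (zz s - zz s'))) +
          (mult F s : ℂ) * (mult F s' : ℂ) * ((phi Λ (zz s - zz s')) ^ 2 *
            Complex.cos ((f j + f l : ℝ) * (zz s - zz s')))) := by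
      intro s s'
      simp only [hφ]
      rw [mul_pow, sq (∑ j ∈ J, _), Finset.sum_mul_sum, Finset.mul_sum, Finset.mul_sum]
      refine Finset.sum_congr rfl fun j _ => ?_
      rw [Finset.mul_sum, Finset.mul_sum]
      refine Finset.sum_congr rfl fun l _ => ?_
      have h2 := cos_prod (f j) (f l) (zz s - zz s')
      have e1 : ((f j : ℂ) - f l) = ((f j - f l : ℝ) : ℂ) := by push_cast; ring
      have e2 : ((f j : ℂ) + f l) = ((f j + f l : ℝ) : ℂ) := by push_cast; ring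
      rw [e1, e2] at h2
      have hWc : (W : ℂ) ≠ 0 := by exact_mod_cast hW.ne'
      calc _ = (mult F s : ℂ) * (mult F s' : ℂ) * ((phi Λ (zz s - zz s')) ^ 2 *
            (((w j / W : ℝ) : ℂ) * ((w l / W : ℝ) : ℂ) *
              (Complex.cos ((f j : ℂ) * (zz s - zz s')) *
                Complex.cos ((f l : ℂ) * (zz s - zz s'))))) := by ring
        _ = _ := by
          rw [h2]
          push_cast
          field_simp
    simp_rw [h1]
    have h5 : ∑ s ∈ Zf F U1 U2, ∑ s' ∈ Zf F U1 U2, ∑ j ∈ J, ∑ l ∈ J,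
        ((w j * w l / W ^ 2 / 2 : ℝ) : ℂ) *
          ((mult F s : ℂ) * (mult F s' : ℂ) * ((phi Λ (zz s - zz s')) ^ 2 *
            Complex.cos ((f j - f l : ℝ) * (zz s - zz s'))) +
          (mult F s : ℂ) * (mult F s' : ℂ) * ((phi Λ (zz s - zz s')) ^ 2 *
            Complex.cos ((f j + f l : ℝ) * (zz s - zz s')))) =
        ∑ j ∈ J, ∑ l ∈ J, ((w j * w l / W ^ 2 / 2 : ℝ) : ℂ) *
          ((QC F Λ U1 U2 (f j - f l) : ℝ) + (QC F Λ U1 U2 (f j + f l) : ℝ)) := by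
      have h6 : ∀ s, ∑ s' ∈ Zf F U1 U2, ∑ j ∈ J, ∑ l ∈ J,
        ((w j * w l / W ^ 2 / 2 : ℝ) : ℂ) *
          ((mult F s : ℂ) * (mult F s' : ℂ) * ((phi Λ (zz s - zz s')) ^ 2 *
            Complex.cos ((f j - f l : ℝ) * (zz s - zz s'))) +
          (mult F s : ℂ) * (mult F s' : ℂ) * ((phi Λ (zz s - zz s')) ^ 2 *
            Complex.cos ((f j + f l : ℝ) * (zz s - zz s')))) =
        ∑ j ∈ J, ∑ l ∈ J, ((w j * w l / W ^ 2 / 2 : ℝ) : ℂ) * (∑ s' ∈ Zf F U1 U2,
          (mult F s : ℂ) * (mult F s' : ℂ) * ((phi Λ (zz s - zz s')) ^ 2 *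
            Complex.cos ((f j - f l : ℝ) * (zz s - zz s'))) + ∑ s' ∈ Zf F U1 U2,
          (mult F s : ℂ) * (mult F s' : ℂ) * ((phi Λ (zz s - zz s')) ^ 2 *
            Complex.cos ((f j + f l : ℝ) * (zz s - zz s')))) := by
        intro s
        rw [Finset.sum_comm]
        refine Finset.sum_congr rfl fun j _ => ?_
        rw [Finset.sum_comm]
        refine Finset.sum_congr rfl fun l _ => ?_
        rw [← Finset.sum_add_distrib, Finset.mul_sum]
      simp_rw [h6]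
      rw [Finset.sum_comm]
      refine Finset.sum_congr rfl fun j _ => ?_
      rw [Finset.sum_comm]
      refine Finset.sum_congr rfl fun l _ => ?_
      rw [← Finset.mul_sum, Finset.sum_add_distrib, sum_cos hF hU, sum_cos hF hU]
    rw [h5]
    have h7 : ∑ j ∈ J, ∑ l ∈ J, ((w j * w l / W ^ 2 / 2 : ℝ) : ℂ) *
          ((QC F Λ U1 U2 (f j - f l) : ℝ) + (QC F Λ U1 U2 (f j + f l) : ℝ)) =
        ((∑ j ∈ J, ∑ l ∈ J, (w j * w l / W ^ 2 / 2) *
          (QC F Λ U1 U2 (f j - f l) + QC F Λ U1 U2 (f j + f l)) : ℝ) : ℂ) := by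
      push_cast
      rfl
    rw [h7, Complex.ofReal_re, Finset.sum_div]
    refine Finset.sum_congr rfl fun j _ => ?_
    rw [Finset.sum_div]
    refine Finset.sum_congr rfl fun l _ => ?_
    ring
  rw [hsum, le_div_iff₀ (by positivity)] at t1 t2
  exact ⟨t1, t2⟩

end

/-- the double sum over an arithmetic progression -/
theorem prog_sum (g : ℝ → ℝ) (hg : ∀ x, g (-x) = g x) (b : ℝ) (n : ℕ) :
    ∑ i ∈ Finset.range n, ∑ j ∈ Finset.range n, g (((i : ℝ) - j) * b) =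
      n * g 0 + 2 * ∑ k ∈ Finset.Ico 1 n, ((n : ℝ) - k) * g (k * b) := by
  induction n with
  | zero => simp
  | succ n ih =>
    have h1 : ∑ i ∈ Finset.range (n + 1), ∑ j ∈ Finset.range (n + 1), g (((i : ℝ) - j) * b) =
        ∑ i ∈ Finset.range n, ∑ j ∈ Finset.range n, g (((i : ℝ) - j) * b) +
        2 * ∑ j ∈ Finset.range n, g (((n : ℝ) - j) * b) + g 0 := by
      rw [Finset.sum_range_succ]
      have h2 : ∀ i ∈ Finset.range n, ∑ j ∈ Finset.range (n + 1), g (((i : ℝ) - j) * b) =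
          ∑ j ∈ Finset.range n, g (((i : ℝ) - j) * b) + g (((n : ℝ) - i) * b) := by
        intro i _
        rw [Finset.sum_range_succ]
        congr 1
        rw [← hg]
        congr 1
        ring
      rw [Finset.sum_congr rfl h2, Finset.sum_add_distrib, Finset.sum_range_succ, sub_self,
        zero_mul]
      ring
    have h3 : ∑ j ∈ Finset.range n, g (((n : ℝ) - j) * b) =
        ∑ k ∈ Finset.Ico 1 (n + 1), g (k * b) := by
      rw [Finset.sum_Ico_eq_sum_range, ← Finset.sum_range_reflect]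
      rw [Nat.add_sub_cancel]
      refine Finset.sum_congr rfl fun j hj => ?_
      have hj' := Finset.mem_range.1 hj
      have : ((n - 1 - j : ℕ) : ℝ) = (n : ℝ) - 1 - j := by
        rw [Nat.cast_sub (by omega), Nat.cast_sub (by omega)]
        simp
      rw [this]
      push_cast
      congr 1
      ring
    have h4 : ∑ k ∈ Finset.Ico 1 (n + 1), (((n + 1 : ℕ) : ℝ) - k) * g (k * b) =
        ∑ k ∈ Finset.Ico 1 n, ((n : ℝ) - k) * g (k * b) +
          ∑ k ∈ Finset.Ico 1 (n + 1), g (k * b) := by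
      have h5 : ∑ k ∈ Finset.Ico 1 n, ((n : ℝ) - k) * g (k * b) =
          ∑ k ∈ Finset.Ico 1 (n + 1), ((n : ℝ) - k) * g (k * b) := by
        rcases Nat.eq_zero_or_pos n with h | h
        · subst h; simp
        · rw [Finset.sum_Ico_succ_top h]
          simp
      rw [h5, ← Finset.sum_add_distrib]
      refine Finset.sum_congr rfl fun k _ => ?_
      push_cast
      ring
    rw [h1, ih, h3, h4]
    push_cast
    ring

section

variable {F : ℂ → ℂ} (hF : GoodL F) {U1 U2 : ℝ} (hU : 1 ≤ U1)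

include hF hU in
/-- the exact inequality for an arithmetic progression -/
theorem prog_ineq (Λ b : ℝ) (n : ℕ) :
    (2 * (NN F U1 U2 : ℝ) - Ns F U1 U2) * (n : ℝ) ^ 2 ≤
      n * QQ F Λ U1 U2 + 2 * ∑ k ∈ Finset.Ico 1 n, ((n : ℝ) - k) * QC F Λ U1 U2 (k * b) ∧
    (3 * (NN F U1 U2 : ℝ) - 2 * Nd F U1 U2) * (n : ℝ) ^ 2 ≤
      n * QQ F Λ U1 U2 + 2 * ∑ k ∈ Finset.Ico 1 n, ((n : ℝ) - k) * QC F Λ U1 U2 (k * b) := by
  have h := exact_ineq (U2 := U2) hF hU Λ (Finset.range n)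
    (fun i => ((i : ℝ) - ((n : ℝ) - 1) / 2) * b) (fun _ => 1) (fun _ _ => zero_le_one)
  simp only [Finset.sum_const, Finset.card_range, nsmul_eq_mul, mul_one, one_mul] at h
  have h1 : ∑ i ∈ Finset.range n, ∑ j ∈ Finset.range n,
      (QC F Λ U1 U2 (((i : ℝ) - ((n : ℝ) - 1) / 2) * b - ((j : ℝ) - ((n : ℝ) - 1) / 2) * b) +
        QC F Λ U1 U2 (((i : ℝ) - ((n : ℝ) - 1) / 2) * b + ((j : ℝ) - ((n : ℝ) - 1) / 2) * b)) / 2 =
      ∑ i ∈ Finset.range n, ∑ j ∈ Finset.range n, QC F Λ U1 U2 (((i : ℝ) - j) * b) := by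
    refine Finset.sum_congr rfl fun i _ => ?_
    rw [← Finset.sum_div, Finset.sum_add_distrib]
    have h2 : ∑ j ∈ Finset.range n, QC F Λ U1 U2 (((i : ℝ) - ((n : ℝ) - 1) / 2) * b -
        ((j : ℝ) - ((n : ℝ) - 1) / 2) * b) =
        ∑ j ∈ Finset.range n, QC F Λ U1 U2 (((i : ℝ) - j) * b) := by
      refine Finset.sum_congr rfl fun j _ => ?_
      congr 1
      ring
    have h3 : ∑ j ∈ Finset.range n, QC F Λ U1 U2 (((i : ℝ) - ((n : ℝ) - 1) / 2) * b +
        ((j : ℝ) - ((n : ℝ) - 1) / 2) * b) =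
        ∑ j ∈ Finset.range n, QC F Λ U1 U2 (((i : ℝ) - j) * b) := by
      rw [← Finset.sum_range_reflect]
      refine Finset.sum_congr rfl fun j hj => ?_
      have hj' := Finset.mem_range.1 hj
      have : ((n - 1 - j : ℕ) : ℝ) = (n : ℝ) - 1 - j := by
        rw [Nat.cast_sub (by omega), Nat.cast_sub (by omega)]
        simp
      rw [this]
      congr 1
      ring
    rw [h2, h3]
    ring
  rw [h1, prog_sum (fun x => QC F Λ U1 U2 x) (fun x => QC_even hF hU Λ x), QC_zero hF hU] at h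
  exact h

end

end Helper488FB
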