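import Pool.Agent.H370R2.Fin1

/-!
The trace inequality for the zeros with any positive definite even kernel, and kernels twisted by
cosines.
-/

open Complex Filter Topology Set MeasureTheory
open scoped BigOperators ComplexConjugate

namespace Helper488FB

open H370

/-- `φ` is the reproducing function of a family of vectors -/
def IsKer (φ : ℂ → ℂ) : Prop :=
  ∃ (E : Type) (_ : NormedAddCommGroup E) (_ : InnerProductSpace ℂ E) (k : ℂ → E),
      ∀ z w, inner ℂ (k z) (k w) = φ (w - conj z)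

section

variable {F : ℂ → ℂ} (hF : GoodL F) {U1 U2 : ℝ} (hU : 1 ≤ U1)

include hF hU in
/-- the trace inequality for the zeros in `(U1, U2]`, with any positive definite kernel -/
theorem trace_gen (φ : ℂ → ℂ) (hE : IsKer φ) (hev : ∀ z, φ (-z) = φ z) (h0 : φ 0 = 1) :
    2 * (NN F U1 U2 : ℝ) - Ns F U1 U2 ≤ (∑ s ∈ Zf F U1 U2, ∑ s' ∈ Zf F U1 U2,
      (mult F s : ℂ) * (mult F s' : ℂ) * (φ (zz s - zz s')) ^ 2).re ∧
    3 * (NN F U1 U2 : ℝ) - 2 * Nd F U1 U2 ≤ (∑ s ∈ Zf F U1 U2, ∑ s' ∈ Zf F U1 U2,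
      (mult F s : ℂ) * (mult F s' : ℂ) * (φ (zz s - zz s')) ^ 2).re := by
  classical
  obtain ⟨E, iE1, iE2, k, hk⟩ := hE
  set W := Zf F U1 U2 with hW
  have hinj : Set.InjOn zz (W : Set ℂ) := fun s _ s' _ h => zz_inj h
  set Z : Finset ℂ := W.image zz with hZ
  set m : ℂ → ℕ := fun z => mult F (1 / 2 + I * z) with hm
  have hback : ∀ s : ℂ, (1 / 2 + I * zz s) = s := by
    intro s
    have := zz_spec s
    linear_combination -this
  have hmz : ∀ s : ℂ, m (zz s) = mult F s := by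
    intro s; simp only [hm]; rw [hback]
  have hWm : ∀ s ∈ W, s ∈ zset F U1 U2 := fun s hs => (mem_Zf hF hU).mp hs
  have hWpos : ∀ s ∈ W, 1 ≤ mult F s := by
    intro s hs
    have := hWm s hs
    exact Loc.mult_pos' hF (by linarith [this.2.2.1]) this.2.2.2.2
  -- the filtered sets
  have hf1 : Z.filter (fun z => z.im = 0 ∧ m z = 1) =
      (W.filter (fun s => s.re = 1 / 2 ∧ mult F s = 1)).image zz := by
    ext z
    simp only [Finset.mem_filter, Finset.mem_image, hZ]
    constructor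
    · rintro ⟨⟨s, hs, rfl⟩, h1, h2⟩
      rw [hmz] at h2
      rw [zz_im] at h1
      exact ⟨s, ⟨hs, by linarith, h2⟩, rfl⟩
    · rintro ⟨s, ⟨hs, h1, h2⟩, rfl⟩
      refine ⟨⟨s, hs, rfl⟩, ?_, ?_⟩
      · rw [zz_im, h1]; ring
      · rw [hmz, h2]
  have hsum1 : ∀ {M : Type} [AddCommMonoid M] (f : ℂ → M),
      ∑ z ∈ Z.filter (fun z => z.im = 0 ∧ m z = 1), f z = ∑ x ∈ SF F U1 U2, f (x : ℂ) := by
    intro M _ f
    rw [hf1, Finset.sum_image (fun s _ s' _ h => zz_inj h), sum_SF]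
    refine Finset.sum_congr rfl fun s hs => ?_
    rw [zz_simple (Finset.mem_filter.mp hs).2.1]
  have hcard1 : ((Z.filter (fun z => z.im = 0 ∧ m z = 1)).card : ℝ) = Ns F U1 U2 := by
    rw [Ns_card hF hU, Finset.card_eq_sum_ones, hsum1, ← Finset.card_eq_sum_ones]
  have hsumZ : ∀ {M : Type} [AddCommMonoid M] (f : ℂ → M),
      ∑ z ∈ Z, f z = ∑ s ∈ W, f (zz s) := by
    intro M _ f
    rw [hZ, Finset.sum_image (fun s _ s' _ h => zz_inj h)]
  have hN : ∑ z ∈ Z, (m z : ℝ) = NN F U1 U2 := by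
    rw [NN_eq hF hU, hsumZ]
    simp only [hmz]
    push_cast; rfl
  have hZc : ∀ z ∈ Z, conj z ∈ Z := by
    intro z hz
    rw [hZ, Finset.mem_image] at hz
    obtain ⟨s, hs, rfl⟩ := hz
    rw [← zz_refl]
    exact Finset.mem_image_of_mem _ ((mem_Zf hF hU).mpr (zset_refl hF hU (hWm s hs)))
  have hmp : ∀ z ∈ Z, 1 ≤ m z := by
    intro z hz
    rw [hZ, Finset.mem_image] at hz
    obtain ⟨s, hs, rfl⟩ := hz
    rw [hmz]
    exact hWpos s hs
  have hT := trace_ineq φ k hk hev h0 Z hZc m hmp ?_ (fun _ _ => 0) ?_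
  · -- main
    rw [hcard1, hN] at hT
    simp only [zero_mul, Finset.sum_const_zero, mul_zero, sub_zero, ne_eq, OfNat.ofNat_ne_zero,
      not_false_eq_true, zero_pow, add_zero] at hT
    have hB : (Z.filter (fun z => z.im < 0)).card = (Z.filter (fun z => 0 < z.im)).card := by
      refine Finset.card_bij' (fun z _ => conj z) (fun z _ => conj z) ?_ ?_ ?_ ?_
      · intro z hz
        rw [Finset.mem_filter] at hz ⊢
        exact ⟨hZc z hz.1, by rw [Complex.conj_im]; linarith [hz.2]⟩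
      · intro z hz
        rw [Finset.mem_filter] at hz ⊢
        exact ⟨hZc z hz.1, by rw [Complex.conj_im]; linarith [hz.2]⟩
      · intro z _; simp
      · intro z _; simp
    set A : ℝ := ((Z.filter (fun z => z.im = 0 ∧ 2 ≤ m z)).card : ℝ) with hA
    set B : ℝ := ((Z.filter (fun z => 0 < z.im)).card : ℝ) with hBdef
    have hb1 : ∑ z ∈ Z, (if z.im = 0 ∧ m z = 1 then (1 : ℝ) else 0) = Ns F U1 U2 := by
      rw [Finset.sum_boole, hcard1]
    have hb2 : ∑ z ∈ Z, (if z.im = 0 ∧ 2 ≤ m z then (1 : ℝ) else 0) = A := by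
      rw [Finset.sum_boole]
    have hb3 : ∑ z ∈ Z, (if 0 < z.im then (1 : ℝ) else 0) = B := by
      rw [Finset.sum_boole]
    have hb4 : ∑ z ∈ Z, (if z.im < 0 then (1 : ℝ) else 0) = B := by
      rw [Finset.sum_boole, hB]
    have hNN : (Ns F U1 U2 : ℝ) + 2 * A + 2 * B ≤ NN F U1 U2 := by
      have : ∑ z ∈ Z, ((if z.im = 0 ∧ m z = 1 then (1 : ℝ) else 0) +
          2 * (if z.im = 0 ∧ 2 ≤ m z then (1 : ℝ) else 0) + (if 0 < z.im then (1 : ℝ) else 0) +
          (if z.im < 0 then (1 : ℝ) else 0)) ≤ ∑ z ∈ Z, (m z : ℝ) := by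
        refine Finset.sum_le_sum fun z hz => ?_
        have h1 : (1 : ℝ) ≤ m z := by exact_mod_cast hmp z hz
        rcases lt_trichotomy z.im 0 with h | h | h
        · have h' : ¬ (0 < z.im) := by linarith
          simp [h, h.ne, h', h1]
        · by_cases h2 : m z = 1
          · simp [h, h2]
          · have h3 : 2 ≤ m z := by have := hmp z hz; omega
            have h4 : (2 : ℝ) ≤ m z := by exact_mod_cast h3
            simp [h, h2, h3, h4]
        · have h' : ¬ (z.im < 0) := by linarith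
          simp [h, h.ne', h', h1]
      rw [Finset.sum_add_distrib, Finset.sum_add_distrib, Finset.sum_add_distrib,
        ← Finset.mul_sum, hb1, hb2, hb3, hb4, hN] at this
      linarith
    have hND : (Nd F U1 U2 : ℝ) = (Ns F U1 U2 : ℝ) + A + 2 * B := by
      have hcz : (Nd F U1 U2 : ℝ) = ∑ z ∈ Z, (1 : ℝ) := by
        rw [Nd_card hF hU, hsumZ, ← hW]; simp
      rw [hcz, ← hb1, ← hb2]
      have e : 2 * B = B + B := by ring
      rw [e]
      nth_rewrite 1 [← hb3]
      rw [← hb4, ← Finset.sum_add_distrib, ← Finset.sum_add_distrib, ← Finset.sum_add_distrib]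
      refine Finset.sum_congr rfl fun z hz => ?_
      rcases lt_trichotomy z.im 0 with h | h | h
      · have h' : ¬ (0 < z.im) := by linarith
        simp [h, h.ne, h']
      · by_cases h2 : m z = 1
        · simp [h, h2]
        · have h3 : 2 ≤ m z := by have := hmp z hz; omega
          simp [h, h2, h3]
      · have h' : ¬ (z.im < 0) := by linarith
        simp [h, h.ne', h']
    have hQ : (∑ z ∈ Z, ∑ w ∈ Z, (m z : ℂ) * (m w : ℂ) * (φ (z - w)) ^ 2).re
        = (∑ s ∈ W, ∑ s' ∈ W,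
      (mult F s : ℂ) * (mult F s' : ℂ) * (φ (zz s - zz s')) ^ 2).re := by
      rw [hsumZ]
      simp only [hsumZ, hmz]
    rw [hQ] at hT
    have hBnn : 0 ≤ B := Nat.cast_nonneg _
    constructor
    · linarith
    · linarith
  · intro z hz
    rw [hZ, Finset.mem_image] at hz
    obtain ⟨s, hs, rfl⟩ := hz
    have := hWm s hs
    rw [← zz_refl, hmz, hmz, mult_refl hF this.1 this.2.1 (by linarith [this.2.2.1])]
  · intro v
    simp only [zero_mul, Finset.sum_const_zero]
    exact Finset.sum_nonneg fun x _ => by positivity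

end

/-- kernels multiplied by a nonnegative combination of cosines -/
theorem ker_cos {φ : ℂ → ℂ} (hE : IsKer φ) {ι : Type} (J : Finset ι) (f w : ι → ℝ)
    (hw : ∀ j ∈ J, 0 ≤ w j) :
    IsKer (fun x => φ x * ∑ j ∈ J, (w j : ℂ) * Complex.cos (f j * x)) := by
  classical
  obtain ⟨E, iE1, iE2, k, hk⟩ := hE
  refine ⟨PiLp 2 (fun _ : J × Bool => E), inferInstance, inferInstance,
    fun z => WithLp.toLp 2 (fun p : J × Bool =>
      (((Real.sqrt (w p.1 / 2) : ℝ) : ℂ) * cexp (I * ((if p.2 then f p.1 else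
        -(f p.1) : ℝ) : ℂ) * z)) • k z), ?_⟩
  intro z v
  rw [PiLp.inner_apply]
  have h1 : ∀ p : J × Bool,
      inner ℂ ((((Real.sqrt (w p.1 / 2) : ℝ) : ℂ) * cexp (I * ((if p.2 then f p.1 else
        -(f p.1) : ℝ) : ℂ) * z)) • k z)
        ((((Real.sqrt (w p.1 / 2) : ℝ) : ℂ) * cexp (I * ((if p.2 then f p.1 else
        -(f p.1) : ℝ) : ℂ) * v)) • k v) =
      φ (v - conj z) * ((w p.1 : ℂ) / 2 * cexp (I * ((if p.2 then f p.1 else
        -(f p.1) : ℝ) : ℂ) * (v - conj z))) := by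
    intro p
    set a : ℝ := if p.2 then f p.1 else -(f p.1) with ha
    rw [inner_smul_left, inner_smul_right, hk, map_mul, Complex.conj_ofReal, ← Complex.exp_conj,
      map_mul, map_mul, Complex.conj_I, Complex.conj_ofReal]
    have h2 : ((Real.sqrt (w p.1 / 2) : ℝ) : ℂ) * ((Real.sqrt (w p.1 / 2) : ℝ) : ℂ) =
        (w p.1 : ℂ) / 2 := by
      rw [← Complex.ofReal_mul, Real.mul_self_sqrt (by have := hw p.1 p.1.2; positivity)]
      push_cast; ring
    have h3 : cexp (-I * a * conj z) * cexp (I * a * v) = cexp (I * a * (v - conj z)) := by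
      rw [← Complex.exp_add]; congr 1; ring
    rw [← h2, ← h3]
    ring
  have h4 : ∀ p : J × Bool, inner ℂ ((WithLp.toLp 2 (fun p : J × Bool =>
      (((Real.sqrt (w p.1 / 2) : ℝ) : ℂ) * cexp (I * ((if p.2 then f p.1 else
        -(f p.1) : ℝ) : ℂ) * z)) • k z)) p) ((WithLp.toLp 2 (fun p : J × Bool =>
      (((Real.sqrt (w p.1 / 2) : ℝ) : ℂ) * cexp (I * ((if p.2 then f p.1 else
        -(f p.1) : ℝ) : ℂ) * v)) • k v)) p) =
      φ (v - conj z) * ((w p.1 : ℂ) / 2 * cexp (I * ((if p.2 then f p.1 else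
        -(f p.1) : ℝ) : ℂ) * (v - conj z))) := fun p => h1 p
  rw [Finset.sum_congr rfl fun p _ => h4 p, ← Finset.mul_sum, Fintype.sum_prod_type]
  congr 1
  rw [← Finset.sum_coe_sort J]
  refine Finset.sum_congr rfl fun j _ => ?_
  rw [Fintype.sum_bool, Complex.cos]
  simp only [if_true, Bool.false_eq_true, if_false]
  push_cast
  have e1 : I * (f ↑j : ℂ) * (v - conj z) = (f ↑j : ℂ) * (v - conj z) * I := by ring
  have e2 : I * -(f ↑j : ℂ) * (v - conj z) = -((f ↑j : ℂ) * (v - conj z)) * I := by ring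
  rw [e1, e2]
  ring

end Helper488FB
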